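import Mathlib
import Pool.Agent.Q103.RP.Hyp

/-!
# Lang's conjecture for varieties which carry a map with many preperiodic points

`X` is an integral projective variety over the number field `k`, a subfield of the complex numbers. It is given
by its function field `K` and the homogeneous coordinates `x` of its generic point; `coords k x = ⊤` says that
`K` is generated by the ratios of the coordinates. `E` is a field which contains `K` and the complex numbers
(compatibly over `k`) and is generated over the complex numbers by the ratios of the coordinates: for instance
the function field of any irreducible component `X'` of the complex variety `X_ℂ` (which is irreducible if `X`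
is geometrically integral).

`ManyPrep k d n p q` (`Pool/Agent/Q103/EC/Mxv.lean`): `f = p / q` is a rational map of the projective line over
`K` of degree `d` (a family of rational maps over an open subset of `X`) with at least `n` preperiodic points
in `P^1(K)` (preperiodic rational sections), and the moduli map `X ⇢ M_d` is generically finite: if `f` is
conjugate over an algebraic closure of `K` to a map with coefficients algebraic over a field between `k` and
`K`, then `K` is algebraic over this field.

`LangOff x R` (`Pool/Agent/Q103/RP/Hyp.lean`): the closed subset `Z = {R = 0}` of `X'` is proper, all closed
subvarieties of `X'` of positive dimension which are not contained in `Z` (in particular `X'` itself) are of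
general type, `Z` contains all entire curves in `X'`, and `X'` is Kobayashi hyperbolic modulo `Z`. Here
`SubOf ℂ x z`: the point `z` over `E` is the generic point of a closed subvariety; `GeneralType ℂ E w`: for
some `N > 0` there are `N`-canonical forms of the function field `E`, regular at all prime divisors of all
models, with `w` algebraically independent ratios; `EntireCurve x f`: a nonconstant holomorphic map from the
complex numbers; `Chain x a b l`: the points `a`, `b` are joined by a chain of holomorphic discs in `X'` of
total Poincare length `l`.

`cfv d p q`: the coefficients of `f`. They are, up to a common factor `t`, the values at `x` of forms `F s`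
of degree `κ`; so the values `F s (a)` are the coefficients of the specialisation `f_a` of `f` at `a`.

`algPts k x R F D T` (`Pool/Agent/Q103/RP/Hyp.lean`): the set of the points of `X` over all number fields `L`
of degree at most `D` (over the rational numbers) which contain `k`, not on `R = 0`, at which the values of
the forms `F s` have absolute height at most `T` (`mulHeight ≤ T ^ [L : ℚ]`), as points of the complex
projective space, by all embeddings of `L` over `k`; `IsPt x a`: all forms over `k` which vanish at `x` vanish
at `a`. So the points of `algPts k x R F D T` are those with absolute height `H(f_a) ≤ T`, and for `F s = X s`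
those with absolute height `H(a) ≤ T`.

Theorem: one proper closed subset `Z` of `X'` serves for the subvarieties, the entire curves, the Kobayashi
pseudodistance and the points of bounded degree: for all degrees `D` and all `ε > 0` with `B D ε ≤ n` the
points of `X` off `Z` over all number fields of degree at most `D` together are sparse: at most `C T ^ ε` with
`H(f_a) ≤ T`, and at most `C T ^ (κ ε)` with `H(a) ≤ T`.

The last part says that there are such `X` over each number field, for each `n`, of dimension `2 d - 2` and
with `κ = 1`.

Proof. Points: the preperiodic points of `f` can be specialised at all points outside a proper closed subset,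
so `f_a` has at least `n` preperiodic points in `P^1(L)`. By the theorem of helper256 and others
(`MP_90787a_nt.FewExceptionalClasses`) the maps of degree `d` over all number fields of degree at most `D`, of
absolute height at most `T` and with so many preperiodic points lie in `C T ^ ε` conjugacy classes over the
complex numbers. The cross ratios of the preperiodic points are invariants of the class and generate a field
over which `K` is algebraic, so each class contains boundedly many of the `f_a`. Geometry: the cross ratios of
the preperiodic points also give symmetric differentials and many functions with zeros of high order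
(projects GT of helper41, EC and KO of helper103).
-/

set_option autoImplicit false

namespace Pool.Agent.Results.MP_2ae8fe_ag.OneSetForPointsAndCurves

open FF Polynomial
open Pool.Agent.W602.GT
open Pool.Agent.Q103.EC (ManyPrep)
open Pool.Agent.Q103.RP (cfv algPts LangOff)

/-- Projective varieties over number fields which carry a rational map with many preperiodic points and
generically finite moduli map: off one proper closed subset all subvarieties are of general type, the
variety is hyperbolic, and its points of bounded degree are sparse. -/
theorem result (d : ℕ) (hd : 2 ≤ d) :
    (∃ (B₀ : ℕ) (B : ℕ → ℝ → ℕ), ∀ (k : Type) [Field k] [NumberField k] [Algebra k ℂ]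
      (K : Type) [Field K] [Algebra k K] (M : ℕ) (x : Fin (M + 1) → K), x ≠ 0 → coords k x = ⊤ →
      ∀ (n : ℕ) (p q : K[X]), B₀ ≤ n → ManyPrep k d n p q →
      ∀ (E : Type) [Field E] [Algebra ℂ E] [Algebra K E] [Algebra k E] [IsScalarTower k K E]
        [IsScalarTower k ℂ E], coords ℂ (fun i => algebraMap K E (x i)) = ⊤ →
      ∀ (κ : ℕ) (F : Fin 2 × Fin (d + 1) → MvPolynomial (Fin (M + 1)) k) (t : K),
        (∀ s, (F s).IsHomogeneous κ) → t ≠ 0 → (∀ s, cfv d p q s = t * val x (F s)) →
        ∃ R : MvPolynomial (Fin (M + 1)) ℂ, LangOff (fun i => algebraMap K E (x i)) R ∧
          ∀ (D : ℕ) (ε : ℝ), 0 < ε → B D ε ≤ n → ∃ C : ℝ, ∀ T : ℝ, 1 ≤ T →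
          ((algPts k x R F D T).Finite ∧ ((algPts k x R F D T).ncard : ℝ) ≤ C * T ^ ε) ∧
          (algPts k x R MvPolynomial.X D T).Finite ∧
            ((algPts k x R MvPolynomial.X D T).ncard : ℝ) ≤ C * T ^ (κ * ε)) ∧
    ∀ (k : Type) [Field k] [NumberField k] (n : ℕ), 3 ≤ n →
      ∃ (K : Type) (_ : Field K) (_ : Algebra k K) (p q : K[X]), ManyPrep k d n p q ∧
        Algebra.trdeg k K = (2 * d - 2 : ℕ) ∧
        ∃ (M : ℕ) (x : Fin (M + 1) → K), x ≠ 0 ∧ coords k x = ⊤ ∧
        ∃ F : Fin 2 × Fin (d + 1) → MvPolynomial (Fin (M + 1)) k, (∀ s, (F s).IsHomogeneous 1) ∧
          ∀ s, cfv d p q s = val x (F s) := by
  exact ⟨Pool.Agent.Q103.RP.lang_sparse d hd,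
    fun k _ _ n hn => Pool.Agent.Q103.RP.exists_over k d n hd hn⟩

end Pool.Agent.Results.MP_2ae8fe_ag.OneSetForPointsAndCurves
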