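import Pool.Agent.Q183.RS.Conv2

/-!
# Sequences of rational points given by linear recurrences are not Zariski dense

Let `K` be a field of characteristic zero with at most continuum many elements (for instance `ℚ`),
and let `X` be the closed subvariety of projective `N`-space over `K` given by the forms in `FF`,
which generate a prime ideal.  Suppose that `X` is not uniruled (for instance of general type, of
positive dimension).

(1) Let `B` be a difference ring of sequences over `K` of transcendence degree at most `e`, and let
`X` have dimension greater than `e`.  A sequence of points of `X` over `K` whose coordinates satisfy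
nontrivial linear recurrences, of any order, with coefficients in `B`, is not Zariski dense in `X`.

(2) In particular, if `X` has dimension at least two, then a sequence of points of `X` over `K`
whose coordinates satisfy nontrivial linear recurrences whose coefficients are polynomials in the
index is not Zariski dense in `X`.

The dimension of `X` is the transcendence degree of its homogeneous coordinate ring minus one.
-/

set_option autoImplicit false

namespace Pool.Agent.Results.MP_2ae8fe_ag.RecurrentNotDense

open MvPolynomial Filter Pool.Agent.H533R3.SL Pool.Agent.Q183.RS Cardinal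

/-- There is a form which vanishes at all points `x m`, but not on `X`. -/
def NotDense {K : Type} [Field K] {N : ℕ} (I : Ideal (MvPolynomial (Fin (N + 1)) K))
    (x : ℕ → Fin (N + 1) → K) : Prop :=
  ∃ H : MvPolynomial (Fin (N + 1)) K, (∃ e, H.IsHomogeneous e) ∧ H ∉ I ∧ ∀ m, aeval (x m) H = 0

theorem result {K : Type} [Field K] [CharZero K] (hK : #K ≤ 𝔠) {N : ℕ}
    (FF : Set (MvPolynomial (Fin (N + 1)) K)) (hprime : (Ideal.span FF).IsPrime)
    (hnu : ¬ Uniruled (Ideal.span FF)) (d : ℕ) (hd : 1 ≤ d)
    (hFF : ∀ F ∈ FF, ∃ e, e ≤ d ∧ F.IsHomogeneous e) :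
    (∀ B : Subalgebra K (ℕ → K), DiffRing B → ∀ e : ℕ, TrK B e →
      (e : Cardinal) + 1 < Algebra.trdeg K (MvPolynomial (Fin (N + 1)) K ⧸ Ideal.span FF) →
      ∀ x : ℕ → Fin (N + 1) → K, (∀ m, x m ≠ 0) → (∀ j, ∃ r, RecK B r (fun m => x m j)) →
      (∀ F ∈ FF, ∀ m, aeval (x m) F = 0) → NotDense (Ideal.span FF) x) ∧
    (2 < Algebra.trdeg K (MvPolynomial (Fin (N + 1)) K ⧸ Ideal.span FF) →
      ∀ x : ℕ → Fin (N + 1) → K, (∀ m, x m ≠ 0) → (∀ j, ∃ r, PRecO r (fun m => x m j)) →
      (∀ F ∈ FF, ∀ m, aeval (x m) F = 0) → NotDense (Ideal.span FF) x) := by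
  refine ⟨?_, ?_⟩
  · intro B hB e he hdim x hne hx hX
    exact weakK hK FF hprime hnu d hd hFF hB e he hdim x hne hx fun m F hF => hX F hF m
  · intro hdim x hne hx hX
    refine weakK hK FF hprime hnu d hd hFF polyB_ring 1 polyB_trK ?_ x hne
      (fun j => ?_) fun m F hF => hX F hF m
    · rw [Nat.cast_one, one_add_one_eq_two]
      exact hdim
    · obtain ⟨r, hr⟩ := hx j
      exact ⟨r, hr.recK⟩

end Pool.Agent.Results.MP_2ae8fe_ag.RecurrentNotDense
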