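import Pool.Agent.Q52.Tw.Glob
import Pool.Agent.Q52.Tw.Count

/-!
# Rational points on the twists of a variety by an action of `μ_q`, and its fixed points

Let `ℓ` be a prime, `q = ℓ ^ k` and `X ⊂ ℙ^(n-1)` an arbitrary projective scheme over `ℤ`, the zero set
of the homogeneous polynomials `F_j`, which is stable under the action
`ζ (x_1, …, x_n) = (ζ ^ w_1 x_1, …, ζ ^ w_n x_n)` of the group `μ_q` of roots of unity.  For an integer
`d ≠ 0` let `X_d` be the twist of `X` by the class of `d` in `ℚ* / ℚ* ^ q = H¹(ℚ, μ_q)`: the points of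
`X_d` over a field `L` are the `(x_1, …, x_n)` in `ℙ^(n-1)(L)` with `(δ ^ w_1 x_1, …, δ ^ w_n x_n) ∈ X`,
where `δ ^ q = d`.

We show that the number of `d` with `0 < |d| ≤ N` such that `X_d` has a point over `ℚ`, or over any
number field whose degree is prime to `ℓ`, is at most

  `C N exp (- ∑_{p ≤ N} 1 / p)`,

where the sum is over the primes `p` such that no extension of `𝔽_p` of degree prime to `ℓ` contains the
coordinates of a fixed point of `μ_q` on `X` modulo `p`, and `C` is an absolute constant, the same for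
all `X`, all dimensions and all `ℓ`, `k`.  If these primes have the density `α` (by Chebotarev's theorem
they have a density, and `α > 0` if for instance the fixed points are conjugate points whose number
is a power of `ℓ`) the bound is of the order `N / (log N) ^ α`.  So for `100%` of the twists Q1 is true,
over all these fields.

Examples of varieties of general type with `α > 0`: the surfaces `f(x_0, x_1) = d g(y_0, y_1)` of degree
`q ≥ 5`, where `f = g` is irreducible, or `f`, `g` are irreducible and have linearly disjoint splitting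
fields; the hypersurfaces `d u ^ q = N_{M/ℚ}(x_0 ω_0 + ⋯ + x_n ω_n)`, `n + 2 < q`, where `M` is a cyclic
field of degree `q` and `ω_0, …, ω_n` are general elements of `M`.

Proof.  Let `p` be one of the primes, and suppose that it divides `d` exactly once.  Let `x` be a point
of `X_d` over `L`; there is a place `v | p` of `L` with ramification index `e` and residue degree `f`
prime to `ℓ`.  Among the `δ ^ w_i x_i` those with the least valuation have the same `w_i` modulo `q`, since
the valuation of `δ` is `e / q`.  Therefore the reduction of the point `(δ ^ w_i x_i)` of `X` is a fixed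
point, defined over the residue field of `v`.  This contradicts the choice of `p`.  The integers which
none of the primes divides exactly once are counted with the method of Hall and Tenenbaum.
-/

set_option autoImplicit false

open NumberField

namespace Pool.Agent.Results.MP_2ae8fe_ag.TwistsAndFixedPoints

/-- `X` has a fixed point of `μ_q` over the field `κ`: a zero `z ≠ 0` of all `F_j` whose coordinates
`z_i ≠ 0` have the same weight modulo `q`. -/
def HasFixedPoint {n : ℕ} {J : Type} (F : J → MvPolynomial (Fin n) ℤ) (w : Fin n → ℕ) (q : ℕ)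
    (κ : Type) [Field κ] : Prop :=
  ∃ z : Fin n → κ, z ≠ 0 ∧ (∀ i i', z i ≠ 0 → z i' ≠ 0 → w i ≡ w i' [MOD q]) ∧
    ∀ j, MvPolynomial.eval₂ (Int.castRingHom κ) z (F j) = 0

/-- The primes `p` such that there are no fixed points of `μ_q`, `q = ℓ ^ k`, over the fields with
`p ^ f` elements, for all `f` prime to `ℓ`. -/
def Obstructing {n : ℕ} {J : Type} (F : J → MvPolynomial (Fin n) ℤ) (w : Fin n → ℕ) (ℓ k : ℕ) :
    Set ℕ :=
  {p | ∀ (κ : Type) [Field κ] (f : ℕ), Nat.card κ = p ^ f → ¬ ℓ ∣ f →
    ¬ HasFixedPoint F w (ℓ ^ k) κ}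

/-- The twist `X_d` has a point over `L`: there are `x ∈ L ^ n`, `x ≠ 0`, and an algebraic element `δ`
with `δ ^ q = d` such that all `F_j` vanish at `(δ ^ w_1 x_1, …, δ ^ w_n x_n)`. -/
def TwistHasPoint {n : ℕ} {J : Type} (F : J → MvPolynomial (Fin n) ℤ) (w : Fin n → ℕ) (q : ℕ)
    (d : ℤ) (L : Type) [Field L] : Prop :=
  ∃ (x : Fin n → L) (δ : AlgebraicClosure L), x ≠ 0 ∧ δ ^ q = (d : AlgebraicClosure L) ∧
    ∀ j, MvPolynomial.eval₂ (Int.castRingHom (AlgebraicClosure L))
      (fun i => δ ^ (w i) * algebraMap L (AlgebraicClosure L) (x i)) (F j) = 0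

/-- The integers `d`, `0 < |d| ≤ N`, such that `X_d` has a point over some number field of degree prime
to `ℓ`, for example over `ℚ`. -/
def Exceptional {n : ℕ} {J : Type} (F : J → MvPolynomial (Fin n) ℤ) (w : Fin n → ℕ) (ℓ k N : ℕ) :
    Set ℤ :=
  {d | d ≠ 0 ∧ |d| ≤ N ∧ ∃ (L : Type) (_ : Field L) (_ : NumberField L),
    ¬ ℓ ∣ Module.finrank ℚ L ∧ TwistHasPoint F w (ℓ ^ k) d L}

open Classical in
/-- The sum of `1 / p` over the primes `p ≤ N` in the set `V`. -/
noncomputable def reciprocalSum (V : Set ℕ) (N : ℕ) : ℝ :=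
  ∑ p ∈ (Finset.Icc 1 N).filter (fun p => p.Prime ∧ p ∈ V), 1 / (p : ℝ)

/-- **Few twists have points.** There is a constant `C` such that for all homogeneous polynomials `F_j`
in `n` variables over `ℤ`, all weights `w_1, …, w_n`, all primes `ℓ` and all `k`, `N ≥ 2`, the number of
integers `d`, `0 < |d| ≤ N`, for which the twist `X_d` of `X = {F_j = 0}` has a point over some number
field of degree prime to `ℓ` is at most `C N exp (- ∑ 1 / p)`, the sum over the primes `p ≤ N` for which
`μ_q`, `q = ℓ ^ k`, has no fixed point on `X` modulo `p` over the extensions of `𝔽_p` of degree prime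
to `ℓ`. -/
theorem result : ∃ C : ℝ, ∀ (n : ℕ) (J : Type) (F : J → MvPolynomial (Fin n) ℤ) (D : J → ℕ),
    (∀ j, (F j).IsHomogeneous (D j)) → ∀ (w : Fin n → ℕ) (ℓ k : ℕ), ℓ.Prime → ∀ N : ℕ, 2 ≤ N →
      ((Exceptional F w ℓ k N).ncard : ℝ) ≤
        C * N * Real.exp (-reciprocalSum (Obstructing F w ℓ k) N) := by
  classical
  obtain ⟨C, hC0, hC⟩ := Pool.Agent.Q52.Tw.count
  refine ⟨2 * C, fun n J F D hF w ℓ k hℓ N hN => ?_⟩
  set V := Obstructing F w ℓ k with hV
  set S := (Finset.Icc 1 N).filter (fun n => Pool.Agent.Q52.Tw.NoExact V n) with hS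
  have hsub : Exceptional F w ℓ k N ⊆
      ((S.image (fun n : ℕ => (n : ℤ)) ∪ S.image (fun n : ℕ => -(n : ℤ)) : Finset ℤ) : Set ℤ) := by
    rintro d ⟨hd0, hdN, L, i1, i2, hl, x, δ, hx, hδ, h⟩
    have hmem : d.natAbs ∈ S := by
      rw [hS, Finset.mem_filter, Finset.mem_Icc]
      refine ⟨⟨Int.natAbs_pos.2 hd0, ?_⟩, ?_⟩
      · have : ((d.natAbs : ℕ) : ℤ) ≤ (N : ℤ) := by
          rw [Int.natCast_natAbs]
          exact hdN
        exact_mod_cast this
      · intro p hp hpV h1
        have hn0 : d.natAbs ≠ 0 := Int.natAbs_ne_zero.2 hd0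
        have h2 : (p : ℤ) ∣ d := by
          rw [Int.natCast_dvd, ← pow_one p, hp.pow_dvd_iff_le_factorization hn0, h1]
        have h3 : ¬ (p : ℤ) ^ 2 ∣ d := by
          rw [← Nat.cast_pow, Int.natCast_dvd, hp.pow_dvd_iff_le_factorization hn0, h1]
          norm_num
        obtain ⟨κ, fκ, f, hcard, hf, hz⟩ := Pool.Agent.Q52.Tw.global_red L p hp ℓ hℓ hl d h2 h3 k w
          F D hF x hx δ hδ h
        exact hpV κ f hcard hf hz
    rw [Finset.mem_coe, Finset.mem_union, Finset.mem_image, Finset.mem_image]
    rcases Int.natAbs_eq d with h1 | h1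
    · exact Or.inl ⟨d.natAbs, hmem, h1.symm⟩
    · exact Or.inr ⟨d.natAbs, hmem, h1.symm⟩
  have h1 : (Exceptional F w ℓ k N).ncard ≤ 2 * S.card := by
    refine (Set.ncard_le_ncard hsub (Finset.finite_toSet _)).trans ?_
    rw [Set.ncard_coe_finset]
    refine (Finset.card_union_le _ _).trans ?_
    have h2 := Finset.card_image_le (s := S) (f := fun n : ℕ => (n : ℤ))
    have h3 := Finset.card_image_le (s := S) (f := fun n : ℕ => -(n : ℤ))
    omega
  have h2 := hC V N hN
  have h3 : Pool.Agent.Q52.Tw.recSum V N = reciprocalSum V N := rfl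
  rw [h3] at h2
  calc ((Exceptional F w ℓ k N).ncard : ℝ) ≤ 2 * (S.card : ℝ) := by exact_mod_cast h1
    _ ≤ 2 * (C * N * Real.exp (-reciprocalSum V N)) :=
        mul_le_mul_of_nonneg_left h2 (by norm_num)
    _ = _ := by ring

end Pool.Agent.Results.MP_2ae8fe_ag.TwistsAndFixedPoints
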