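import Mathlib
import Pool.Agent.Q51.UF.FamK
import Pool.Agent.Q51.UN.Off

set_option autoImplicit false

/-!
# Families of varieties of general type: uniform finiteness of sparse points outside one closed subset

Let `𝒳` be an irreducible closed subset of `𝔸 ^ m × ℙ ^ n` over a field `k` of algebraic numbers,
given by equations `F 1, …, F N` of degree at most `d` in the coordinates of `ℙ ^ n`. For a point `a`
of `𝔸 ^ m` over a field `L` (which contains `k`) the member `X_a` is the closed subset of `ℙ ^ n` over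
`L` with the equations `F i (a, x) = 0`. The following conditions are equivalent.

1. The generic member is not uniruled: through a generic point of `𝒳` passes no nonconstant rational
   curve contained in its member. (This holds if the generic member is of general type and of
   positive dimension, or more generally not covered by rational curves.)
2. For every `r` there is a proper closed subset `𝒢` of `𝒳` such that for every finitely generated
   group `Γ` of algebraic numbers
   * (uniform finiteness) for ALL fields `L` which contain the algebraic numbers, ALL members `X_a`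
     over `L` and ALL vectors `V 1, …, V r` over `L`, at most `M` points of `X_a` outside `𝒢` have
     homogeneous coordinates of the form `∑ u j s j V j`, where the `u j` have a power in `Γ` and the
     height of the point `(s 1 : … : s r)` is less than `ε`. Here `ε > 0` depends only on `r` and `d`,
     and `M` depends only on `r`, `d` and `Γ`: neither on the member nor on the family, the dimension,
     the field and the vectors;
   * (heights) there is `B` such that for ALL members `X_a` over the algebraic numbers and ALL vectors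
     `V j` of algebraic numbers the points `x = ∑ u j V j` of `X_a` outside `𝒢`, where the `u j` have a
     power in `Γ`, satisfy `h(x) ≤ B (1 + h(1 : a) + h(V))`.
3. For every `r` there is a proper closed subset `𝒢` of `𝒳` such that for all members `X_a` and all
   vectors `V j` over the algebraic numbers only finitely many points of `X_a` outside `𝒢` have
   homogeneous coordinates of the form `∑ 2 ^ (e j) V j`, `e j ≥ 0` integers.

This is the uniformity in families that is expected for the rational points of varieties of general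
type (Caporaso, Harris and Mazur; Hassett; Abramovich), for these points.
-/

namespace Pool.Agent.Results.MP_2ae8fe_ag.UniformInFamilies

open MvPolynomial
open scoped LinearAlgebra.Projectivization
open Pool.Agent.Helper259.AbsHt (absLogHeight absLogHeight_nonneg absLogHeight_smul)

/-- The algebraic numbers. -/
abbrev Qbar : Type := AlgebraicClosure ℚ

/-- The equation of the member of the family with the parameters `a`. -/
noncomputable def member {k L : Type} [Field k] [Field L] {m n : ℕ} (φ : k →+* L) (a : Fin m → L)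
    (F : MvPolynomial (Fin (n + 1)) (MvPolynomial (Fin m) k)) : MvPolynomial (Fin (n + 1)) L :=
  map (eval₂Hom φ a) F

/-- Over some field `L` that contains `k` there are parameters `a` and a nonconstant rational curve
`t ↦ p t` in the member with the parameters `a`, such that `(a, p 1)` is a generic point over `k` of
the family `F = 0`: no form outside the ideal of the family vanishes there. -/
def GenericMemberUniruled {k : Type} [Field k] {m n N : ℕ}
    (F : Fin N → MvPolynomial (Fin (n + 1)) (MvPolynomial (Fin m) k)) : Prop :=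
  ∃ (L : Type) (_ : Field L) (φ : k →+* L) (a : Fin m → L) (p : Fin (n + 1) → Polynomial L),
    (∀ i, aeval p (member φ a (F i)) = 0) ∧
    (∀ G : MvPolynomial (Fin (n + 1)) (MvPolynomial (Fin m) k), (∃ e, G.IsHomogeneous e) →
      G ∉ Ideal.span (Set.range F) → eval (fun i => (p i).eval 1) (member φ a G) ≠ 0) ∧
    ∃ i i', p i * Polynomial.C ((p i').eval 1) ≠ p i' * Polynomial.C ((p i).eval 1)

/-- The points of projective space over `L` on `F = 0` and off `G = 0` with the coordinates
`∑ u j s j V j`, where the `u j` have a power in `Γ` and the height of the point `s` is less than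
`ε`. -/
def nearPoints {L : Type} [Field L] [Algebra Qbar L] {n N r : ℕ}
    (F : Fin N → MvPolynomial (Fin (n + 1)) L) (G : MvPolynomial (Fin (n + 1)) L)
    (Γ : Subgroup Qbarˣ) (ε : ℝ) (V : Fin r → Fin (n + 1) → L) : Set (ℙ L (Fin (n + 1) → L)) :=
  {P | ∃ (u : Fin r → Qbarˣ) (s : Fin r → Qbar)
    (h : (fun i => ∑ j, algebraMap Qbar L (u j * s j) * V j i) ≠ 0),
    (∀ j, ∃ m : ℕ, 0 < m ∧ u j ^ m ∈ Γ) ∧ absLogHeight s < ε ∧ P = Projectivization.mk L _ h ∧
      (∀ c, eval (fun i => ∑ j, algebraMap Qbar L (u j * s j) * V j i) (F c) = 0) ∧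
      eval (fun i => ∑ j, algebraMap Qbar L (u j * s j) * V j i) G ≠ 0}

/-- The points of projective space on `F = 0` and off `G = 0` with the coordinates
`∑ 2 ^ (e j) V j`. -/
def powerPoints {n N r : ℕ} (F : Fin N → MvPolynomial (Fin (n + 1)) Qbar)
    (G : MvPolynomial (Fin (n + 1)) Qbar) (V : Fin r → Fin (n + 1) → Qbar) :
    Set (ℙ Qbar (Fin (n + 1) → Qbar)) :=
  {P | ∃ (e : Fin r → ℕ) (h : (fun i => ∑ j, (2 : Qbar) ^ e j * V j i) ≠ 0),
    P = Projectivization.mk Qbar _ h ∧ (∀ c, eval (fun i => ∑ j, (2 : Qbar) ^ e j * V j i) (F c) = 0) ∧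
      eval (fun i => ∑ j, (2 : Qbar) ^ e j * V j i) G ≠ 0}

/-- The height of the point with the projective coordinates `1` and `a`. -/
noncomputable def paramHeight {m : ℕ} (a : Fin m → Qbar) : ℝ :=
  absLogHeight (fun o : Option (Fin m) => o.elim (1 : Qbar) a)

/-- The height of the point with the projective coordinates `V j i`. -/
noncomputable def vectorsHeight {n r : ℕ} (V : Fin r → Fin (n + 1) → Qbar) : ℝ :=
  absLogHeight (fun p : Fin r × Fin (n + 1) => V p.1 p.2)

theorem uniruled_iff {k : Type} [Field k] {m n N : ℕ}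
    (F : Fin N → MvPolynomial (Fin (n + 1)) (MvPolynomial (Fin m) k)) :
    GenericMemberUniruled F ↔ Pool.Agent.Q51.UF.K.FamUniruled (Ideal.span (Set.range F)) := by
  constructor
  · rintro ⟨L, iL, φ, a, p, h1, h2, h3⟩
    refine ⟨L, iL, φ, a, p, fun G hG => ?_, h2, h3⟩
    let ψ : MvPolynomial (Fin (n + 1)) (MvPolynomial (Fin m) k) →+* Polynomial L :=
      ((aeval p : MvPolynomial (Fin (n + 1)) L →ₐ[L] Polynomial L) : _ →+* _).comp
        (map (eval₂Hom φ a))
    have h4 : Ideal.span (Set.range F) ≤ RingHom.ker ψ := by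
      rw [Ideal.span_le]
      rintro _ ⟨i, rfl⟩
      exact h1 i
    exact h4 hG
  · rintro ⟨L, iL, φ, a, p, h1, h2, h3⟩
    exact ⟨L, iL, φ, a, p, fun i => h1 _ (Ideal.subset_span ⟨i, rfl⟩), h2, h3⟩

/-- **Main theorem.** There are positive numbers `ε d r` and numbers `M Γ d r` such that for every
family `F = 0` over a field `k` of algebraic numbers, irreducible and given by equations of degree at
most `d`, the following conditions are equivalent: the generic member is not uniruled; the uniform
finiteness and the uniform bound for the heights; the finiteness for powers of `2`. -/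
theorem result : ∃ (ε : ℕ → ℕ → ℝ) (M : Subgroup Qbarˣ → ℕ → ℕ → ℕ), (∀ d r, 0 < ε d r) ∧
    ∀ (k : Type) [Field k] (σ : k →+* Qbar) (m n N d : ℕ)
      (F : Fin N → MvPolynomial (Fin (n + 1)) (MvPolynomial (Fin m) k)), 1 ≤ d →
      (∀ i, ∃ e, e ≤ d ∧ (F i).IsHomogeneous e) → (Ideal.span (Set.range F)).IsPrime →
      [¬ GenericMemberUniruled F,
       ∀ r : ℕ, ∃ G : MvPolynomial (Fin (n + 1)) (MvPolynomial (Fin m) k),
         (∃ e, G.IsHomogeneous e) ∧ G ∉ Ideal.span (Set.range F) ∧
         ∀ Γ : Subgroup Qbarˣ, Γ.FG →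
          (∀ (L : Type) [Field L] [Algebra Qbar L] (φ : k →+* L) (a : Fin m → L)
            (V : Fin r → Fin (n + 1) → L),
            (nearPoints (fun i => member φ a (F i)) (member φ a G) Γ (ε d r) V).encard ≤ M Γ d r) ∧
          ∃ B : ℝ, ∀ (a : Fin m → Qbar) (V : Fin r → Fin (n + 1) → Qbar) (u : Fin r → Qbarˣ),
            (∀ j, ∃ m : ℕ, 0 < m ∧ u j ^ m ∈ Γ) →
            (fun i => ∑ j, (u j : Qbar) * V j i) ≠ 0 →
            (∀ c, eval (fun i => ∑ j, (u j : Qbar) * V j i) (member σ a (F c)) = 0) →
            eval (fun i => ∑ j, (u j : Qbar) * V j i) (member σ a G) ≠ 0 →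
            absLogHeight (fun i => ∑ j, (u j : Qbar) * V j i) ≤
              B * (1 + paramHeight a + vectorsHeight V),
       ∀ r : ℕ, ∃ G : MvPolynomial (Fin (n + 1)) (MvPolynomial (Fin m) k),
         (∃ e, G.IsHomogeneous e) ∧ G ∉ Ideal.span (Set.range F) ∧
         ∀ (a : Fin m → Qbar) (V : Fin r → Fin (n + 1) → Qbar),
          (powerPoints (fun i => member σ a (F i)) (member σ a G) V).Finite].TFAE := by
  classical
  have hM : ∀ (Γ : Subgroup Qbarˣ) (d r : ℕ), ∃ M : ℕ, Γ.FG → 1 ≤ d →
      ∀ (n N : ℕ) (L : Type) [Field L] (ι : Qbar →+* L)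
      (P : Fin N → MvPolynomial (Fin (n + 1)) L) (_ : ∀ i, ∃ e, e ≤ d ∧ (P i).IsHomogeneous e)
      (G : MvPolynomial (Fin (n + 1)) L) (T : Set (Fin r × Fin (n + 1)))
      (_ : ∀ (c : Fin r → Fin (n + 1) → L) (l : Fin r → ℕ),
        (∀ j a, (j, a) ∉ T → c j a = 0) →
        (∀ i, MvPolynomial.aeval (Pool.Agent.H533R3.SL.cur c l) (P i) = 0) →
        (∃ i i', Pool.Agent.H533R3.SL.cur c l i * Polynomial.C (∑ j, c j i') ≠
          Pool.Agent.H533R3.SL.cur c l i' * Polynomial.C (∑ j, c j i)) →
        eval (fun i => ∑ j, c j i) G = 0)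
      (v : Fin r → Fin (n + 1) → L) (_ : ∀ j a, (j, a) ∉ T → v j a = 0),
      (Pool.Agent.Q51.UN.nearOff ι P G Γ (Pool.Agent.Q51.UN.epsU d r / d) v).encard ≤ (M : ℕ∞) := by
    intro Γ d r
    by_cases h : Γ.FG ∧ 1 ≤ d
    · obtain ⟨M, hM⟩ := Pool.Agent.Q51.UN.card_nearOff Γ h.1 d r h.2
      exact ⟨M, fun _ _ => hM⟩
    · exact ⟨0, fun h1 h2 => absurd ⟨h1, h2⟩ h⟩
  choose M hM using hM
  refine ⟨fun d r => Pool.Agent.Q51.UN.epsU d r / (max d 1 : ℕ), M, fun d r =>
    div_pos (Pool.Agent.Q51.UN.epsU_pos d r) (by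
      have : 0 < max d 1 := by omega
      exact_mod_cast this), ?_⟩
  intro k _ σ m n N d F hd hF hprime
  have hmax : max d 1 = d := max_eq_left hd
  simp only [hmax]
  tfae_have 1 → 2 := by
    intro hnu r
    rw [uniruled_iff] at hnu
    obtain ⟨G, hGh, hGI, hG⟩ := Pool.Agent.Q51.UF.K.exists_hyperF (Set.range F) hprime hnu d hd
      (by rintro _ ⟨i, rfl⟩; exact hF i) r
    refine ⟨G, hGh, hGI, fun Γ hΓ => ⟨fun L _ _ φ a V => ?_, ?_⟩⟩
    · have h1 := hM Γ d r hΓ hd n N L (algebraMap Qbar L) (fun i => member φ a (F i))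
        (fun i => by
          obtain ⟨e, he, h⟩ := hF i
          exact ⟨e, he, h.map _⟩) (member φ a G) Set.univ (fun c l _ h1 h2 =>
          hG L φ a c l (by rintro _ ⟨i, rfl⟩; exact h1 i) h2) V
        (fun j i h => absurd (Set.mem_univ _) h)
      refine (Set.encard_le_encard ?_).trans h1
      rintro P ⟨u, s, h0, hu, hs, hP, hc, hG0⟩
      exact ⟨fun j => u j * s j, ⟨u, s, hu, hs, fun j => rfl⟩, hc, hG0, h0, hP⟩
    · obtain ⟨B, e, hB0, hB⟩ := Pool.Agent.Q51.UF.K.fam_heights σ F d hd hF G hGh r
        (fun L _ ι a c l h1 h2 => hG L ι a c l (by rintro _ ⟨i, rfl⟩; exact h1 i) h2) Γ hΓ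
      exact ⟨B, fun a V u hu hx0 hx hxG => (hB a V).1 u hu hx0 hx hxG⟩
  tfae_have 2 → 3 := by
    intro h r
    obtain ⟨G, hGh, hGI, hG⟩ := h r
    refine ⟨G, hGh, hGI, fun a V => ?_⟩
    have h2 : (2 : Qbar) ≠ 0 := two_ne_zero
    obtain ⟨h1, -⟩ := hG (Subgroup.zpowers (Units.mk0 (2 : Qbar) h2))
      ((Subgroup.fg_iff _).2 ⟨{Units.mk0 (2 : Qbar) h2}, by
        rw [← Subgroup.zpowers_eq_closure], Set.finite_singleton _⟩)
    refine (Set.finite_of_encard_le_coe (h1 Qbar σ a V)).subset ?_
    rintro P ⟨e, h0, hP, hc, hG0⟩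
    have he : (fun i => ∑ j, algebraMap Qbar Qbar
        ((((Units.mk0 (2 : Qbar) h2) ^ e j : Qbarˣ) : Qbar) * 1) * V j i) =
        fun i => ∑ j, (2 : Qbar) ^ e j * V j i := by
      funext i
      refine Finset.sum_congr rfl fun j _ => ?_
      simp
    refine ⟨fun j => (Units.mk0 (2 : Qbar) h2) ^ e j, fun _ => 1, ?_, fun j => ⟨1, one_pos, ?_⟩,
      ?_, ?_, ?_, ?_⟩
    · rw [he]
      exact h0
    · rw [pow_one]
      exact Subgroup.pow_mem _ (Subgroup.mem_zpowers _) _
    · rw [Pool.Agent.Y215.SP.abs_one]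
      exact div_pos (Pool.Agent.Q51.UN.epsU_pos d r) (by exact_mod_cast hd)
    · rw [hP]
      exact Pool.Agent.Y215.SP.mk_congr _ _ he.symm
    · intro c
      rw [he]
      exact hc c
    · rw [he]
      exact hG0
  tfae_have 3 → 1 := by
    intro h
    rw [uniruled_iff]
    refine ((Pool.Agent.Q51.UF.K.fam_tfae σ F d hd hF hprime).out 0 2).2 fun r => ?_
    obtain ⟨G, hGh, hGI, hG⟩ := h r
    refine ⟨G, hGh, hGI, fun a V => ?_⟩
    obtain ⟨B, hB⟩ := ((hG a V).image (fun P => absLogHeight P.rep)).bddAbove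
    refine ⟨B, fun e hx0 hx hxG => ?_⟩
    have h1 : absLogHeight (Projectivization.mk Qbar (fun i => ∑ j, (2 : Qbar) ^ e j * V j i)
        hx0).rep ≤ B := hB ⟨_, ⟨e, hx0, rfl, hx, hxG⟩, rfl⟩
    obtain ⟨c, hc⟩ := Projectivization.exists_smul_eq_mk_rep Qbar
      (fun i => ∑ j, (2 : Qbar) ^ e j * V j i) hx0
    rw [← hc] at h1
    have h2 : c • (fun i => ∑ j, (2 : Qbar) ^ e j * V j i) =
        (c : Qbar) • (fun i => ∑ j, (2 : Qbar) ^ e j * V j i) := rfl
    rw [h2, absLogHeight_smul _ c.ne_zero] at h1
    exact h1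
  tfae_finish

end Pool.Agent.Results.MP_2ae8fe_ag.UniformInFamilies
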